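import Pool.Agent.H560R2.Sw4

/-!
A function in parity-L that needs linear space in symmetric, and space of the order of the square
root in nondeterministic computations with few negations.

Symmetric (or, by Reingold's theorem, deterministic) space `S` corresponds to undirected switching
networks with `2 ^ O(S)` nodes, nondeterministic space `S` to directed networks. Here a computation
consists of rounds; in each round some networks are evaluated, the choice of which depends in an
arbitrary way on the answers of the earlier rounds, and a last network, chosen in the same way,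
gives the result. A NOT gate is a round with one network.

The function: unsolvability of the subsets of a fixed sparse system of at most `N` linear
equations over the field with two elements in `N` variables. It has a monotone span program over
this field with one row for each equation, so it is in the class parity-L, which is contained in
`NC^2` and in `P`.

The proof: monotone undirected networks are span programs over every field, and the rank measure of
the function is `2 ^ Ω(N)`. For computations with rounds many disjoint copies are used: a chain of
solvable systems is built copy by copy; if in some copy no such system changes the answers, then the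
OR of the networks with negative answers decides the copy. If the answers change, then the number
of positive answers increases in the first round in which they change.
-/

namespace Pool.Agent.Results.MP_807b32_lc.FewNegations

open Pool.Agent.H560R2

/-- A linear equation over the field with two elements: the sum of the variables `e.1 0`, ...,
`e.1 7` is `e.2`. -/
abbrev Equation (N : ℕ) : Type := (Fin 8 → Fin N) × ZMod 2

/-- The system of the equations `G i` with `x i = true` is solvable. -/
def Solvable {N m : ℕ} (G : Fin m → Equation N) (x : Fin m → Bool) : Prop :=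
  ∃ a : Fin N → ZMod 2, ∀ i, x i = true → ∑ j, a ((G i).1 j) = (G i).2

/-- Switching networks over the input bits `V`: a label, which is a constant or a literal, for each
pair of nodes. -/
structure Network (V : Type) where
  nodes : ℕ
  label : Fin nodes → Fin nodes → Bool ⊕ (V × Bool)
  source : Fin nodes
  target : Fin nodes

/-- The wire from `u` to `v` is present on the input `x`: its label is the constant `true` or a
literal `(i, b)` with `x i = b`. -/
def Network.Wire {V : Type} (P : Network V) (x : V → Bool) (u v : Fin P.nodes) : Prop :=
  Sum.elim id (fun l => decide (x l.1 = l.2)) (P.label u v) = true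

/-- Undirected networks accept if the source and the target are connected by wires. -/
def Network.Connected {V : Type} (P : Network V) (x : V → Bool) : Prop :=
  Relation.ReflTransGen (fun u v => P.Wire x u v ∨ P.Wire x v u) P.source P.target

/-- Directed networks accept if there is a directed path of wires from the source to the target. -/
def Network.Reachable {V : Type} (P : Network V) (x : V → Bool) : Prop :=
  Relation.ReflTransGen (fun u v => P.Wire x u v) P.source P.target

/-- All input bits in negative literals of the network belong to `Z`. -/
def Network.NegIn {V : Type} (P : Network V) (Z : Finset V) : Prop :=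
  ∀ u v i, P.label u v = Sum.inr (i, false) → i ∈ Z

/-- Computations in rounds. In round `i` the `w i` networks `net i A k` are evaluated, where `A` is
the table of the answers of the rounds before `i`; then the network `last A` gives the result. -/
structure Computation (V : Type) (accepts : Network V → (V → Bool) → Prop) where
  rounds : ℕ
  w : ℕ → ℕ
  net : (i : ℕ) → ((j : Fin i) → Fin (w j) → Bool) → Fin (w i) → Network V
  last : ((j : Fin rounds) → Fin (w j) → Bool) → Network V
  ans : (V → Bool) → (i : ℕ) → Fin (w i) → Bool
  spec : ∀ x i k, ans x i k = true ↔ accepts (net i (fun j => ans x j) k) x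

variable {V : Type} {accepts : Network V → (V → Bool) → Prop}

/-- The result. -/
def Computation.Accepts (C : Computation V accepts) (x : V → Bool) : Prop :=
  accepts (C.last (fun j => C.ans x j)) x

/-- The number of nodes of all networks that are evaluated if the answers are given by `A`. -/
def Computation.size (C : Computation V accepts) (A : (i : ℕ) → Fin (C.w i) → Bool) : ℕ :=
  (C.last (fun j => A j)).nodes +
    ∑ i ∈ Finset.range C.rounds, ∑ k, (C.net i (fun j => A j) k).nodes

/-- All input bits in negative literals of the networks belong to `Z`. -/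
def Computation.NegIn (C : Computation V accepts) (Z : Finset V) : Prop :=
  (∀ i A k, (C.net i A k).NegIn Z) ∧ ∀ A, (C.last A).NegIn Z

theorem Computation.bound {K : Type} [Field K] [DecidableEq V] {s M S B : ℕ}
    {F : (V → Bool) → Prop} (hB : Blk K s M F) (C : Computation V accepts) (Z : Finset V)
    (hM : ∏ i ∈ Finset.range C.rounds, (C.w i + 1) + Z.card ≤ M) (hZ : C.NegIn Z)
    (hmono : ∀ P : Network V, P.NegIn Z → ∀ x x', x ≤ x' → accepts P (rst Z x) →
      accepts P (rst Z x'))
    (cost : ℕ → ℕ)
    (hRB : ∀ P : Network V, P.NegIn Z → ∀ g : (V → Bool) → Bool,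
      (∀ x, g x = true ↔ accepts P (rst Z x)) → RBall K (cost P.nodes) g)
    (hcost : ∀ n ≤ S, 0 < n → cost n ≤ n * B)
    (hS : ∀ A, C.size A ≤ S) (hF : ∀ x, C.Accepts x ↔ F x) : 2 ^ s ≤ S * B := by
  classical
  have hg : ∀ (P : Network V) (x : V → Bool),
      decide (accepts P (rst Z x)) = true ↔ accepts P (rst Z x) := fun P x => decide_eq_true_iff
  obtain ⟨A, hA⟩ := (hB.restrict Z).adaptive (w := C.w) C.rounds
    (fun i k A x => decide (accepts (C.net i (fun j => A j) k) (rst Z x)))
    (by
      intro i k A A' x hA
      have : (fun j : Fin i => A j) = fun j : Fin i => A' j := by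
        funext j
        exact hA j j.isLt
      rw [this])
    (by
      intro i k A x x' hx
      rw [Bool.le_iff_imp, hg, hg]
      exact hmono _ (hZ.1 _ _ _) x x' hx)
    (fun i k A => cost (C.net i (fun j => A j) k).nodes)
    (fun i k A => hRB _ (hZ.1 _ _ _) _ (fun x => hg _ x))
    (fun x => C.ans (rst Z x))
    (by
      intro x i k
      rw [Bool.eq_iff_iff, hg]
      exact C.spec (rst Z x) i k)
    (fun A x => decide (accepts (C.last (fun j => A j)) (rst Z x)))
    (by
      intro A A' x hA
      have : (fun j : Fin C.rounds => A j) = fun j : Fin C.rounds => A' j := by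
        funext j
        exact hA j j.isLt
      rw [this])
    (fun A => cost (C.last (fun j => A j)).nodes)
    (fun A => hRB _ (hZ.2 _) _ (fun x => hg _ x))
    (fun x => (hg _ x).trans (hF (rst Z x)))
    (by omega)
  have h1 := hS A
  unfold Computation.size at h1
  have hpos : ∀ P : Network V, 0 < P.nodes := fun P => P.source.pos
  have h2 : cost (C.last (fun j => A j)).nodes ≤ (C.last (fun j => A j)).nodes * B :=
    hcost _ (by omega) (hpos _)
  have h3 : ∑ i ∈ Finset.range C.rounds, ∑ k, cost (C.net i (fun j => A j) k).nodes ≤
      ∑ i ∈ Finset.range C.rounds, ∑ k, (C.net i (fun j => A j) k).nodes * B := by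
    refine Finset.sum_le_sum (fun i hi => Finset.sum_le_sum (fun k _ => hcost _ ?_ (hpos _)))
    have h4 : (C.net i (fun j => A j) k).nodes ≤ ∑ k, (C.net i (fun j => A j) k).nodes :=
      Finset.single_le_sum (f := fun k => (C.net i (fun j => A j) k).nodes)
        (fun _ _ => Nat.zero_le _) (Finset.mem_univ k)
    have h5 : ∑ k, (C.net i (fun j => A j) k).nodes ≤
        ∑ i ∈ Finset.range C.rounds, ∑ k, (C.net i (fun j => A j) k).nodes :=
      Finset.single_le_sum (f := fun i => ∑ k, (C.net i (fun j => A j) k).nodes)
        (fun _ _ => Nat.zero_le _) hi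
    omega
  have h6 : ∑ i ∈ Finset.range C.rounds, ∑ k, (C.net i (fun j => A j) k).nodes * B =
      (∑ i ∈ Finset.range C.rounds, ∑ k, (C.net i (fun j => A j) k).nodes) * B := by
    rw [Finset.sum_mul]
    refine Finset.sum_congr rfl (fun i _ => ?_)
    rw [Finset.sum_mul]
  calc 2 ^ s ≤ (C.last (fun j => A j)).nodes * B +
        (∑ i ∈ Finset.range C.rounds, ∑ k, (C.net i (fun j => A j) k).nodes) * B := by
        rw [← h6]
        exact hA.trans (Nat.add_le_add h2 h3)
    _ = ((C.last (fun j => A j)).nodes +
        ∑ i ∈ Finset.range C.rounds, ∑ k, (C.net i (fun j => A j) k).nodes) * B := by ring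
    _ ≤ S * B := Nat.mul_le_mul_right B h1

/-- There is a constant `c` such that for all `N` and `t` there is a set `G` of `m ≤ N` linear
equations over the field with two elements in `N` variables, eight in each equation, with the
following properties.

(1) There is a monotone span program over this field with `m` rows for unsolvability: it has a row
for each equation and a target, and the system of the equations `G i` with `x i = true` is
unsolvable if and only if the target is in the span of their rows.

(2) Let a computation in rounds decide unsolvability of the subsystems of `G`. If the product over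
the rounds of the numbers `w i + 1` plus the number of input bits that are used negated (those in
`Z`) is at most `t + 1`, and if on each computation path the networks have at most `S` nodes in all,
then `N ≤ c (t + 1) (log S + 1)` for undirected networks, and `N ≤ c (t + 1) (log S + 1) ^ 2` for
directed networks. -/
theorem result : ∃ c : ℕ, ∀ N t : ℕ, ∃ (m : ℕ) (G : Fin m → Equation N), m ≤ N ∧
    (∃ (row : Fin m → Fin (N + 1) → ZMod 2) (target : Fin (N + 1) → ZMod 2), ∀ x : Fin m → Bool,
      target ∈ Submodule.span (ZMod 2) (row '' {i | x i = true}) ↔ ¬ Solvable G x) ∧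
    ∀ (Z : Finset (Fin m)) (S : ℕ),
      (∀ C : Computation (Fin m) Network.Connected, C.NegIn Z →
        ∏ i ∈ Finset.range C.rounds, (C.w i + 1) + Z.card ≤ t + 1 →
        (∀ A, C.size A ≤ S) → (∀ x, C.Accepts x ↔ ¬ Solvable G x) →
        N ≤ c * (t + 1) * (Nat.log 2 S + 1)) ∧
      (∀ C : Computation (Fin m) Network.Reachable, C.NegIn Z →
        ∏ i ∈ Finset.range C.rounds, (C.w i + 1) + Z.card ≤ t + 1 →
        (∀ A, C.size A ≤ S) → (∀ x, C.Accepts x ↔ ¬ Solvable G x) →
        N ≤ c * (t + 1) * (Nat.log 2 S + 1) ^ 2) := by
  classical
  obtain ⟨c0, hc0, h0⟩ := lin_blocks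
  refine ⟨3 * c0, fun N t => ?_⟩
  by_cases hN : c0 * (t + 1) ≤ N
  · obtain ⟨m, s, G, hm, hNs, hB⟩ := h0 N (t + 1) (by omega) hN
    refine ⟨m, G, hm, ⟨lrow G, ltgt N, fun x => solv_span G x⟩, fun Z S => ⟨?_, ?_⟩⟩
    · intro C hZ hprod hS hC
      have h := C.bound (hB ℚ two_ne_zero) Z hprod hZ
        (by
          intro P hP x x' hx h
          refine Relation.ReflTransGen.mono (r := fun u v => P.Wire (rst Z x) u v ∨
            P.Wire (rst Z x) v u) (fun u v huv => ?_) _ _ h
          exact huv.imp (pres_mono Z _ (fun w hw => hP _ _ w hw) hx)
            (pres_mono Z _ (fun w hw => hP _ _ w hw) hx))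
        (fun n => n * n)
        (fun P hP g hg => RBall.net Z P.label (fun u v w h => hP u v w h) P.source P.target g hg)
        (B := S) (fun n hn _ => Nat.mul_le_mul_left n hn) hS hC
      have h3 : S < 2 ^ (Nat.log 2 S + 1) := Nat.lt_pow_succ_log_self (by norm_num) S
      have h4 : 2 ^ s < 2 ^ (2 * (Nat.log 2 S + 1)) := by
        refine h.trans_lt ?_
        rw [two_mul, pow_add]
        exact Nat.mul_lt_mul'' h3 h3
      have h5 := (Nat.pow_lt_pow_iff_right (by norm_num : 1 < 2)).mp h4
      calc N ≤ c0 * (t + 1) * (s + 1) := hNs
        _ ≤ c0 * (t + 1) * (3 * (Nat.log 2 S + 1)) := Nat.mul_le_mul_left _ (by omega)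
        _ = 3 * c0 * (t + 1) * (Nat.log 2 S + 1) := by ring
    · intro C hZ hprod hS hC
      have h3 : S < 2 ^ (Nat.log 2 S + 1) := Nat.lt_pow_succ_log_self (by norm_num) S
      set q := Nat.log 2 S + 1 with hq
      have h := C.bound (hB ℚ two_ne_zero) Z hprod hZ
        (by
          intro P hP x x' hx h
          refine Relation.ReflTransGen.mono (r := fun u v => P.Wire (rst Z x) u v)
            (fun u v huv => ?_) _ _ h
          exact pres_mono Z _ (fun w hw => hP _ _ w hw) hx huv)
        (fun n => 2 ^ ((Nat.log 2 n + 1 + 1) * (Nat.log 2 n + 1)))
        (fun P hP g hg => RBall.dnet Z P.label (fun u v w h => hP u v w h) P.source P.target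
          (Nat.log 2 P.nodes + 1) (Nat.lt_pow_succ_log_self (by norm_num) _).le g hg)
        (B := 2 ^ ((q + 1) * q)) (fun n hn hn0 => by
          have h6 : Nat.log 2 n ≤ Nat.log 2 S := Nat.log_mono_right hn
          have h7 : 2 ^ ((Nat.log 2 n + 1 + 1) * (Nat.log 2 n + 1)) ≤ 2 ^ ((q + 1) * q) :=
            Nat.pow_le_pow_right (by norm_num) (Nat.mul_le_mul (by omega) (by omega))
          exact h7.trans (Nat.le_mul_of_pos_left _ hn0)) hS hC
      have h4 : 2 ^ s < 2 ^ (q + (q + 1) * q) := by
        refine h.trans_lt ?_
        rw [pow_add 2 q]
        exact Nat.mul_lt_mul_of_pos_right h3 (by positivity)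
      have h5 := (Nat.pow_lt_pow_iff_right (by norm_num : 1 < 2)).mp h4
      have hq1 : 1 ≤ q := by omega
      calc N ≤ c0 * (t + 1) * (s + 1) := hNs
        _ ≤ c0 * (t + 1) * (3 * q ^ 2) := Nat.mul_le_mul_left _ (by nlinarith)
        _ = 3 * c0 * (t + 1) * q ^ 2 := by ring
  · refine ⟨0, Fin.elim0, Nat.zero_le _, ⟨lrow _, ltgt N, fun x => solv_span _ x⟩,
      fun Z S => ⟨?_, ?_⟩⟩
    · intro C _ _ _ _
      have h1 : N ≤ 3 * c0 * (t + 1) * 1 := by
        have : c0 * (t + 1) ≤ 3 * c0 * (t + 1) * 1 := by nlinarith
        omega
      exact h1.trans (Nat.mul_le_mul_left _ (by omega))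
    · intro C _ _ _ _
      have h1 : N ≤ 3 * c0 * (t + 1) * 1 := by
        have : c0 * (t + 1) ≤ 3 * c0 * (t + 1) * 1 := by nlinarith
        omega
      exact h1.trans (Nat.mul_le_mul_left _ (Nat.one_le_pow _ _ (by omega)))

end Pool.Agent.Results.MP_807b32_lc.FewNegations
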