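import Pool.Agent.H870R2.LS.Main
import Pool.Agent.H870R2.LS.Poly

set_option autoImplicit false

/-! # Local symmetry: P versus polylogarithmic space

Nondeterministic switching networks (branching programs) that decide derivability in path systems
on a finite set `V`, the P-complete solvable path problem.

(1) A network that is symmetric on each of `r` disjoint blocks of five elements has at least
`5 ^ k` nodes as soon as `3000 k ^ 3 (log_5 r + 2) ^ 2 ≤ r`. (2) Every network can be made symmetric
on `r` blocks at the cost of a factor `60 ^ r` in size. (3) A circuit of polynomial size with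
counting gates, symmetric under all permutations of the elements that fix `t`, decides the
problem. -/

namespace Pool.Agent.Results.MP_807b32_lc.LocalSymmetryNL

open Pool.Agent.H870R2.LS

theorem result :
    (∀ (V Q : Type) [Fintype V] [Fintype Q] (N : SNet (Inp V) Q) (t : V),
      (∀ x, N.Acc x ↔ Der x t) →
      ∀ (r : ℕ) (blk : Fin r → (Fin 5 ↪ V)),
        (Pairwise fun i j => Disjoint (Set.range (blk i)) (Set.range (blk j))) →
        (∀ i, t ∉ Set.range (blk i)) → (∀ i, N.SymOn (blk i)) →
        ∀ k : ℕ, 1 ≤ k → 3000 * k ^ 3 * (Nat.log 5 r + 2) ^ 2 ≤ r → 5 ^ k ≤ Fintype.card Q) ∧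
    (∀ (V Q : Type) [Fintype V] [Fintype Q] (N : SNet (Inp V) Q) (t : V),
      (∀ x, N.Acc x ↔ Der x t) →
      ∀ (r : ℕ) (blk : Fin r → (Fin 5 ↪ V)),
        (Pairwise fun i j => Disjoint (Set.range (blk i)) (Set.range (blk j))) →
        (∀ i, t ∉ Set.range (blk i)) →
        ∃ (Q' : Type) (_ : Fintype Q') (N' : SNet (Inp V) Q'),
          (∀ x, N'.Acc x ↔ Der x t) ∧ (∀ i, N'.SymOn (blk i)) ∧
          Fintype.card Q' = 60 ^ r * Fintype.card Q + 2) ∧
    (∀ (V : Type) [Fintype V] (t : V),
      ∃ (Q : Type) (_ : Fintype Q) (C : Ckt (Inp V) Q),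
        (∀ x, C.val x C.out = true ↔ Der x t) ∧
        (∀ g N N', N 1 = N' 1 → C.F g N = C.F g N') ∧
        (∀ p : Equiv.Perm V, p t = t → ∃ φ, C.IsAut (inpPerm p) φ) ∧
        Fintype.card Q ≤ (Fintype.card V + 1) ^ 4) :=
  ⟨fun _ _ _ _ N t hN r blk hd ht hs k hk hr => lower_net N t hN r blk hd ht hs k hk hr,
    fun _ _ _ _ N t hN r blk hd ht => symmetrize_net N t hN r blk hd ht,
    fun _ _ t => by
      obtain ⟨Q, i, C, h1, h2, h3, h4, _⟩ := poly t
      exact ⟨Q, i, C, h1, h2, h3, h4⟩⟩

end Pool.Agent.Results.MP_807b32_lc.LocalSymmetryNL
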