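import Pool.Agent.H657R3.Lbp4

/-!
Linear branching programs that read (almost) once, and an explicit function in P.

The path to a node `v` only sees the linear forms in `Pre v`. Cut every computation path at the
first node `v` where `Pre v` has codimension at most `m`. The set of the inputs that pass a given
cut edge is invariant under a space `D` of dimension at least `m`, and the function computed below
the cut has spectral norm at most `2 ^ (m + k)`. The Cauchy-Schwarz inequality over the cosets of
`D` leads to the derivatives of the function in directions of `D`, which are quadratic forms of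
large rank, hence nearly uncorrelated with functions of small spectral norm.
-/

namespace Pool.Agent.Results.MP_807b32_lc.ReadOnceLinearBP

open Pool.Agent.H657R3

/-- Let `p` be any Boolean function of `l` variables and let `target p` be the function
`p(w) + ∑_{i + j + k = 3 g - 1} x_i y_j z_k` of `n = l + 6 g` variables over the field with two
elements. If a linear branching program with `s` query nodes and at most `k` late re-queries (with
parameter `m`) on every path agrees with `target p` on at least `(1/2 + ε) 2^n` inputs, then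
`4 ε² ≤ (2 s + 1) (2^l / 2^m + 4^(m + k) / 2^g)`. -/
theorem result (g l : ℕ) (p : (Fin l → ZMod 2) → ZMod 2) (B : LBP (Vars g l)) (m k : ℕ)
    (hk : B.late m 0 ≤ k) (ε : ℝ) (hε : 0 ≤ ε)
    (hagree : (1 / 2 + ε) * 2 ^ (l + 6 * g) ≤
      ((Finset.univ.filter (fun x : Vars g l → ZMod 2 => B.eval x 0 = target p x)).card : ℝ)) :
    4 * ε ^ 2 ≤ (2 * B.s + 1) * (2 ^ l / 2 ^ m + 4 ^ (m + k) / 2 ^ g) := by
  classical
  have hn : Fintype.card (Vars g l) = l + 6 * g := by
    simp only [Fintype.card_sum, Fintype.card_prod, Fintype.card_fin]; ring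
  have hc := correlation p B m k hk
  rw [hn] at hc
  set n := l + 6 * g with hndef
  set A := (Finset.univ.filter (fun x : Vars g l → ZMod 2 => B.eval x 0 = target p x)) with hA
  have hsum : ∑ x, ch (target p x) * ch (B.eval x 0) = 2 * (A.card : ℝ) - 2 ^ n := by
    have h1 : ∀ x : Vars g l → ZMod 2, ch (target p x) * ch (B.eval x 0) =
        2 * (if B.eval x 0 = target p x then (1 : ℝ) else 0) - 1 := by
      intro x
      split_ifs with h
      · rw [h, ch_sq]; norm_num
      · rcases z2 (B.eval x 0) with h1 | h1 <;> rcases z2 (target p x) with h2 | h2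
        · exact absurd (h1.trans h2.symm) h
        · rw [h1, h2, ch_zero, ch_one]; norm_num
        · rw [h1, h2, ch_zero, ch_one]; norm_num
        · exact absurd (h1.trans h2.symm) h
    rw [Finset.sum_congr rfl (fun x _ => h1 x), Finset.sum_sub_distrib, ← Finset.mul_sum,
      Finset.sum_boole, Finset.sum_const, Finset.card_univ, Fintype.card_fun, hn]
    simp [hA]
  have hpow : (0 : ℝ) < 2 ^ n := by positivity
  have hlow : 2 * ε * 2 ^ n ≤ ∑ x, ch (target p x) * ch (B.eval x 0) := by
    rw [hsum]; nlinarith
  have h0 : 0 ≤ 2 * ε * 2 ^ n := by positivity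
  have hsq : (2 * ε * 2 ^ n) ^ 2 ≤
      (2 * B.s + 1) * 4 ^ n * (2 ^ l / 2 ^ m + 4 ^ (m + k) / 2 ^ g) :=
    (pow_le_pow_left₀ h0 hlow 2).trans hc
  have h4 : (4 : ℝ) ^ n = 2 ^ n * 2 ^ n := by rw [← mul_pow]; norm_num
  have h4pos : (0 : ℝ) < 4 ^ n := by positivity
  have hfin : 4 ^ n * (4 * ε ^ 2) ≤
      4 ^ n * ((2 * B.s + 1) * (2 ^ l / 2 ^ m + 4 ^ (m + k) / 2 ^ g)) := by
    have e1 : (2 * ε * 2 ^ n) ^ 2 = 4 ^ n * (4 * ε ^ 2) := by rw [h4]; ring
    have e2 : (2 * (B.s : ℝ) + 1) * 4 ^ n * (2 ^ l / 2 ^ m + 4 ^ (m + k) / 2 ^ g) =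
        4 ^ n * ((2 * B.s + 1) * (2 ^ l / 2 ^ m + 4 ^ (m + k) / 2 ^ g)) := by ring
    rw [← e1, ← e2]; exact hsq
  exact le_of_mul_le_mul_left hfin h4pos

end Pool.Agent.Results.MP_807b32_lc.ReadOnceLinearBP
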