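import Pool.Agent.H628R4.SP.FinalT
import Pool.Agent.H620R2.Gauge2.Trans

/-!
# For how many oracles are the tally sets in `P` or `NP` in polylogarithmic space?

For every gauge `f`, the set of the oracles `A` such that every tally set in `P^A` is in
`DSPACE^A((log n)^k)` is a null set for `f` if and only if for every `ε > 0` there are infinitely
many `N` with `f N ≤ (log N) ^ ε`; and the same for `NP^A` and `NSPACE^A((log n)^k)`. The same
holds for every set of oracles which contains all `A` such that every tally set in `PSPACE^A` is in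
`DSPACE^A((log n)^c)` for all `c`, and such that for every element `A` of it the tally sets in
`P^A` are in nondeterministic polylogarithmic space, or the tally sets in deterministic
polylogarithmic space are in `P^A`.
-/

set_option autoImplicit false

namespace Pool.Agent.Results.MP_807b32_lc.TallyGauge

open Pool.Agent.NPC Pool.Agent.H620R2.Gauge Pool.Agent.H628R4.SP

theorem result (f : ℕ → ℝ) :
    (∀ O : Set Oracle,
      (∀ A : Oracle, (∀ L, Tally L → IsPSPACE A L → ∀ c, InDLogPow A c L) → A ∈ O) →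
      (∀ A ∈ O, (∀ L, Tally L → IsP A L → IsNPolylog A L) ∨
        (∀ L, Tally L → IsPolylog A L → IsP A L)) →
      (Null f O ↔
        ∀ ε : ℝ, 0 < ε → ∃ᶠ N : ℕ in Filter.atTop, f N ≤ (Real.logb 2 N) ^ ε)) ∧
    (∀ k : ℕ, Null f {A : Oracle | ∀ L, Tally L → IsP A L → InDLogPow A k L} ↔
      ∀ ε : ℝ, 0 < ε → ∃ᶠ N : ℕ in Filter.atTop, f N ≤ (Real.logb 2 N) ^ ε) ∧
    (∀ k : ℕ, Null f {A : Oracle | ∀ L, Tally L → IsNP A L → InNLogPow A k L} ↔
      ∀ ε : ℝ, 0 < ε → ∃ᶠ N : ℕ in Filter.atTop, f N ≤ (Real.logb 2 N) ^ ε) := by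
  refine ⟨fun O h1 h2 => keyT f O h1 h2, fun k => keyT f _ ?_ ?_, fun k => keyT f _ ?_ ?_⟩
  · intro A hA L hT hL
    exact hA L hT hL.isPSPACE k
  · intro A hA
    exact Or.inl fun L hT hL => ⟨k, (hA L hT hL).inN⟩
  · intro A hA L hT hL
    exact (hA L hT hL.isPSPACE k).inN
  · intro A hA
    exact Or.inl fun L hT hL => ⟨k, hA L hT hL.isNP⟩

end Pool.Agent.Results.MP_807b32_lc.TallyGauge
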